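import Mathlib

set_option autoImplicit false

namespace Pool.Agent.H720R3

open Finset

variable {E : Type} [Fintype E] [DecidableEq E]

/-- number of sets with prescribed trace -/
lemma card_trace (C P : Finset E) (hP : P ⊆ C) :
    ((univ.filter (fun A : Finset E => A ∩ C = P)).card : ℝ) * 2 ^ C.card
      = 2 ^ Fintype.card E := by
  have h1 : (univ.filter (fun A : Finset E => A ∩ C = P)).card = (Cᶜ).powerset.card := by
    refine Finset.card_bij' (fun A _ => A \ C) (fun B _ => B ∪ P) ?_ ?_ ?_ ?_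
    · intro A _
      rw [mem_powerset]
      intro x hx
      rw [mem_compl]
      exact (mem_sdiff.1 hx).2
    · intro B hB
      rw [mem_powerset] at hB
      rw [mem_filter]
      refine ⟨mem_univ _, ?_⟩
      ext x
      rw [mem_inter, mem_union]
      constructor
      · rintro ⟨h | h, h'⟩
        · exact absurd h' (mem_compl.1 (hB h))
        · exact h
      · intro h
        exact ⟨Or.inr h, hP h⟩
    · intro A hA
      rw [mem_filter] at hA
      ext x
      simp only [mem_union, mem_sdiff]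
      constructor
      · rintro (h | h)
        · exact h.1
        · rw [← hA.2, mem_inter] at h
          exact h.1
      · intro h
        by_cases hx : x ∈ C
        · right
          rw [← hA.2, mem_inter]
          exact ⟨h, hx⟩
        · exact Or.inl ⟨h, hx⟩
    · intro B hB
      rw [mem_powerset] at hB
      ext x
      simp only [mem_union, mem_sdiff]
      constructor
      · rintro ⟨h | h, h'⟩
        · exact h
        · exact absurd (hP h) h'
      · intro h
        exact ⟨Or.inl h, mem_compl.1 (hB h)⟩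
  rw [h1, card_powerset]
  have h2 : (Cᶜ).card + C.card = Fintype.card E := by
    rw [add_comm]; exact card_add_card_compl C
  rw [← h2]
  push_cast
  rw [pow_add]

/-- the number of blocks at which the trace of `A` is as prescribed -/
noncomputable def cnt {M : ℕ} (C P : Fin M → Finset E) (A : Finset E) : ℝ :=
  ∑ j, if A ∩ C j = P j then (1 : ℝ) else 0

lemma sum_cnt {M c : ℕ} (C P : Fin M → Finset E) (hP : ∀ j, P j ⊆ C j) (hc : ∀ j, (C j).card = c) :
    ∑ A : Finset E, cnt C P A = (M : ℝ) / 2 ^ c * 2 ^ Fintype.card E := by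
  unfold cnt
  rw [sum_comm]
  have : ∀ j : Fin M, ∑ A : Finset E, (if A ∩ C j = P j then (1 : ℝ) else 0)
      = 2 ^ Fintype.card E / 2 ^ c := by
    intro j
    rw [Finset.sum_boole]
    have := card_trace (C j) (P j) (hP j)
    rw [hc j] at this
    rw [eq_div_iff (by positivity)]
    exact this
  rw [sum_congr rfl fun j _ => this j]
  simp
  ring

lemma sum_cnt_sq {M c : ℕ} (C P : Fin M → Finset E) (hP : ∀ j, P j ⊆ C j)
    (hc : ∀ j, (C j).card = c) (hdis : ∀ j k, j ≠ k → Disjoint (C j) (C k)) :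
    ∑ A : Finset E, (cnt C P A) ^ 2 ≤
      ((M : ℝ) / 2 ^ c + ((M : ℝ) / 2 ^ c) ^ 2) * 2 ^ Fintype.card E := by
  unfold cnt
  have h1 : ∀ A : Finset E, (∑ j, if A ∩ C j = P j then (1 : ℝ) else 0) ^ 2
      = ∑ j, ∑ k, if (A ∩ C j = P j ∧ A ∩ C k = P k) then (1 : ℝ) else 0 := by
    intro A
    rw [sq, Finset.sum_mul_sum]
    refine sum_congr rfl fun j _ => sum_congr rfl fun k _ => ?_
    by_cases h : A ∩ C j = P j <;> by_cases h' : A ∩ C k = P k <;> simp [h, h']
  rw [sum_congr rfl fun A _ => h1 A, sum_comm]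
  have h2 : ∀ j k : Fin M, ∑ A : Finset E,
      (if (A ∩ C j = P j ∧ A ∩ C k = P k) then (1 : ℝ) else 0)
      ≤ (if j = k then 2 ^ Fintype.card E / 2 ^ c else 0)
        + 2 ^ Fintype.card E / (2 ^ c * 2 ^ c) := by
    intro j k
    rw [Finset.sum_boole]
    by_cases hjk : j = k
    · subst hjk
      rw [if_pos rfl]
      have := card_trace (C j) (P j) (hP j)
      rw [hc j] at this
      have h3 : ((univ.filter (fun A : Finset E => A ∩ C j = P j ∧ A ∩ C j = P j)).card : ℝ)
          = 2 ^ Fintype.card E / 2 ^ c := by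
        rw [eq_div_iff (by positivity), ← this]
        congr 3
        ext A
        simp
      rw [h3]
      have : (0 : ℝ) ≤ 2 ^ Fintype.card E / (2 ^ c * 2 ^ c) := by positivity
      linarith
    · rw [if_neg hjk, zero_add]
      have hd := hdis j k hjk
      have := card_trace (C j ∪ C k) (P j ∪ P k) (union_subset_union (hP j) (hP k))
      rw [card_union_of_disjoint hd, hc j, hc k] at this
      rw [pow_add] at this
      rw [le_div_iff₀ (by positivity), ← this]
      refine mul_le_mul_of_nonneg_right ?_ (by positivity)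
      have hsub : (univ.filter (fun A : Finset E => A ∩ C j = P j ∧ A ∩ C k = P k)) ⊆
          (univ.filter (fun A : Finset E => A ∩ (C j ∪ C k) = P j ∪ P k)) := by
        intro A hA
        rw [mem_filter] at hA ⊢
        refine ⟨mem_univ _, ?_⟩
        rw [inter_union_distrib_left, hA.2.1, hA.2.2]
      exact_mod_cast card_le_card hsub
  have h4 : ∀ j : Fin M, ∑ A : Finset E, ∑ k : Fin M,
      (if (A ∩ C j = P j ∧ A ∩ C k = P k) then (1 : ℝ) else 0)
      ≤ 2 ^ Fintype.card E / 2 ^ c + M * (2 ^ Fintype.card E / (2 ^ c * 2 ^ c)) := by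
    intro j
    rw [sum_comm]
    calc _ ≤ ∑ k : Fin M, ((if j = k then (2:ℝ) ^ Fintype.card E / 2 ^ c else 0)
        + 2 ^ Fintype.card E / (2 ^ c * 2 ^ c)) := sum_le_sum fun k _ => h2 j k
      _ = _ := by
        rw [sum_add_distrib]
        simp
  calc _ ≤ ∑ j : Fin M, (2 ^ Fintype.card E / 2 ^ c + M * (2 ^ Fintype.card E / (2 ^ c * 2 ^ c)) : ℝ) :=
        sum_le_sum fun j _ => h4 j
    _ = _ := by
      simp only [sum_const, card_univ, Fintype.card_fin, nsmul_eq_mul]
      field_simp

/-- second moment bound: on any family the count is close to its mean -/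
lemma conc {M c : ℕ} (C P : Fin M → Finset E) (hP : ∀ j, P j ⊆ C j)
    (hc : ∀ j, (C j).card = c) (hdis : ∀ j k, j ≠ k → Disjoint (C j) (C k))
    (S : Finset (Finset E)) :
    (M : ℝ) / 2 ^ c * S.card - Real.sqrt ((M : ℝ) / 2 ^ c) * 2 ^ Fintype.card E
      ≤ ∑ A ∈ S, cnt C P A := by
  set μ : ℝ := (M : ℝ) / 2 ^ c with hμ
  have hμ0 : 0 ≤ μ := by positivity
  set T : ℝ := 2 ^ Fintype.card E with hT
  have hT0 : 0 < T := by positivity
  have h1 : (∑ A ∈ S, (cnt C P A - μ)) ^ 2 ≤ S.card * ∑ A ∈ S, (cnt C P A - μ) ^ 2 :=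
    sq_sum_le_card_mul_sum_sq
  have h2 : ∑ A ∈ S, (cnt C P A - μ) ^ 2 ≤ ∑ A : Finset E, (cnt C P A - μ) ^ 2 :=
    sum_le_sum_of_subset_of_nonneg (subset_univ _) fun _ _ _ => sq_nonneg _
  have h3 : ∑ A : Finset E, (cnt C P A - μ) ^ 2 ≤ μ * T := by
    have e1 : ∀ A : Finset E, (cnt C P A - μ) ^ 2
        = (cnt C P A) ^ 2 - 2 * μ * cnt C P A + μ ^ 2 := fun A => by ring
    rw [sum_congr rfl fun A _ => e1 A, sum_add_distrib, sum_sub_distrib, ← mul_sum]
    rw [sum_cnt C P hP hc]
    have := sum_cnt_sq C P hP hc hdis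
    rw [← hμ, ← hT] at this ⊢
    have e2 : ∑ _A : Finset E, μ ^ 2 = μ ^ 2 * T := by
      simp [hT, mul_comm]
    rw [e2]
    nlinarith
  have h4 : (S.card : ℝ) ≤ T := by
    have : S.card ≤ Fintype.card (Finset E) := card_le_univ S
    rw [Fintype.card_finset] at this
    rw [hT]
    exact_mod_cast this
  have h5 : (∑ A ∈ S, (cnt C P A - μ)) ^ 2 ≤ T * (μ * T) := by
    calc _ ≤ S.card * ∑ A ∈ S, (cnt C P A - μ) ^ 2 := h1
      _ ≤ T * (μ * T) := mul_le_mul h4 (h2.trans h3) (sum_nonneg fun _ _ => sq_nonneg _) hT0.le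
  have h6 : |∑ A ∈ S, (cnt C P A - μ)| ≤ Real.sqrt μ * T := by
    rw [← Real.sqrt_sq_eq_abs]
    have : Real.sqrt μ * T = Real.sqrt (T * (μ * T)) := by
      rw [show T * (μ * T) = μ * T ^ 2 by ring, Real.sqrt_mul hμ0, Real.sqrt_sq hT0.le]
    rw [this]
    exact Real.sqrt_le_sqrt h5
  have h7 := (abs_le.1 h6).1
  rw [sum_sub_distrib] at h7
  simp only [sum_const, nsmul_eq_mul] at h7
  linarith

end Pool.Agent.H720R3
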