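import Mathlib

set_option autoImplicit false

namespace Pool.Agent.H720R3

open Finset

/-- `ψ` has degree at most `k` on the subsets of `V` (all differences of order `k + 1` over
disjoint sets vanish) -/
def Deg {α G : Type} [DecidableEq α] [AddCommGroup G] :
    ℕ → (Finset α → G) → Finset α → Prop
  | 0, ψ, V => ∀ A ⊆ V, ψ A = ψ ∅
  | k + 1, ψ, V => ∀ U ⊆ V, Deg k (fun γ => ψ (U ∪ γ) - ψ γ) (V \ U)

section
variable {α G : Type} [DecidableEq α] [AddCommGroup G]

lemma Deg.mono {k : ℕ} : ∀ {ψ : Finset α → G} {V W : Finset α}, W ⊆ V → Deg k ψ V → Deg k ψ W := by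
  induction k with
  | zero =>
    intro ψ V W h hψ A hA
    exact hψ A (hA.trans h)
  | succ k ih =>
    intro ψ V W h hψ U hU
    exact ih (sdiff_subset_sdiff h (Subset.refl U)) (hψ U (hU.trans h))

lemma Deg.pi {ι : Type} {k : ℕ} : ∀ {ψ : ι → Finset α → G} {V : Finset α},
    (∀ i, Deg k (ψ i) V) → Deg (G := ι → G) k (fun γ i => ψ i γ) V := by
  induction k with
  | zero =>
    intro ψ V h A hA
    funext i
    exact h i A hA
  | succ k ih =>
    intro ψ V h U hU
    have := ih (ψ := fun i γ => ψ i (U ∪ γ) - ψ i γ) (V := V \ U) (fun i => h i U hU)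
    exact this

/-- indexed monomial form implies bounded degree -/
lemma deg_of_sum {ι : Type} {k : ℕ} : ∀ (I : Finset ι) (s : ι → Finset α) (c : ι → G)
    (_ : ∀ t ∈ I, (s t).card ≤ k) (ψ : Finset α → G) (V : Finset α)
    (_ : ∀ A ⊆ V, ψ A = ∑ t ∈ I, if s t ⊆ A then c t else 0), Deg k ψ V := by
  induction k with
  | zero =>
    intro I s c hs ψ V hψ A hA
    rw [hψ A hA, hψ ∅ (empty_subset V)]
    refine sum_congr rfl fun t ht => ?_
    have : s t = ∅ := card_eq_zero.1 (Nat.le_zero.1 (hs t ht))
    rw [this]
    simp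
  | succ k ih =>
    intro I s c hs ψ V hψ U hU
    classical
    refine ih (I.filter fun t => ¬ Disjoint (s t) U) (fun t => s t \ U) c ?_ _ _ ?_
    · intro t ht
      rw [mem_filter] at ht
      have h1 := hs t ht.1
      have h2 : (s t \ U).card < (s t).card := by
        refine card_lt_card ?_
        rw [Finset.ssubset_iff_subset_ne]
        refine ⟨sdiff_subset, fun h => ht.2 ?_⟩
        exact sdiff_eq_self_iff_disjoint.1 h
      omega
    · intro γ hγ
      have hγV : γ ⊆ V := hγ.trans sdiff_subset
      have hγU : Disjoint γ U := by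
        rw [Finset.disjoint_left]
        intro x hx
        exact (mem_sdiff.1 (hγ hx)).2
      show ψ (U ∪ γ) - ψ γ = _
      rw [hψ (U ∪ γ) (union_subset hU hγV), hψ γ hγV, ← sum_sub_distrib, sum_filter]
      refine sum_congr rfl fun t _ => ?_
      by_cases hd : Disjoint (s t) U
      · rw [if_neg (not_not.2 hd)]
        have : s t ⊆ U ∪ γ ↔ s t ⊆ γ := by
          constructor
          · intro h x hx
            rcases mem_union.1 (h hx) with h' | h'
            · exact absurd h' (Finset.disjoint_left.1 hd hx)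
            · exact h'
          · intro h
            exact h.trans subset_union_right
        simp [this]
      · rw [if_pos hd]
        have h1 : ¬ s t ⊆ γ := by
          intro h
          exact hd (Finset.disjoint_of_subset_left h hγU)
        have h2 : s t ⊆ U ∪ γ ↔ s t \ U ⊆ γ := by
          constructor
          · intro h x hx
            rw [mem_sdiff] at hx
            exact (mem_union.1 (h hx.1)).resolve_left hx.2
          · intro h x hx
            by_cases hxU : x ∈ U
            · exact mem_union_left _ hxU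
            · exact mem_union_right _ (h (mem_sdiff.2 ⟨hx, hxU⟩))
        rw [if_neg h1, sub_zero]
        by_cases h3 : s t ⊆ U ∪ γ
        · rw [if_pos h3, if_pos (h2.1 h3)]
        · rw [if_neg h3, if_neg fun h4 => h3 (h2.2 h4)]

end

/-- a polynomial of bounded degree with values in a finite abelian group returns to its value at the
empty set on some nonempty subset of every large set -/
lemma exists_return (k : ℕ) : ∀ (G : Type) [AddCommGroup G] [Fintype G], ∃ r : ℕ,
    ∀ (α : Type) [DecidableEq α] (V : Finset α) (ψ : Finset α → G), r ≤ V.card → Deg k ψ V →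
      ∃ γ ⊆ V, γ.Nonempty ∧ ψ γ = ψ ∅ := by
  induction k with
  | zero =>
    intro G _ _
    refine ⟨1, fun α _ V ψ hV hψ => ?_⟩
    have : V.Nonempty := by rw [← Finset.card_pos]; omega
    exact ⟨V, Subset.refl V, this, hψ V (Subset.refl V)⟩
  | succ k ih =>
    intro G _ _
    classical
    -- blocks
    have key : ∀ t : ℕ, ∃ r : ℕ, ∀ (α : Type) [DecidableEq α] (V : Finset α) (ψ : Finset α → G),
        r ≤ V.card → Deg (k + 1) ψ V → ∃ (S : ℕ → G) (U : ℕ → ℕ → Finset α),
          ∀ i j, i ≤ j → j ≤ t → U i j ⊆ V ∧ (i < j → (U i j).Nonempty) ∧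
            ψ (U i j) - ψ ∅ = S j - S i := by
      intro t
      induction t with
      | zero =>
        refine ⟨0, fun α _ V ψ _ _ => ⟨fun _ => 0, fun _ _ => ∅, ?_⟩⟩
        intro i j hij hj
        refine ⟨empty_subset V, fun h => ?_, by simp⟩
        omega
      | succ t iht =>
        obtain ⟨r1, h1⟩ := iht
        obtain ⟨r2, h2⟩ := ih (Fin (t + 1) → G)
        refine ⟨r1 + r2, fun α _ V ψ hV hψ => ?_⟩
        obtain ⟨V1, hV1, hc1⟩ := exists_subset_card_eq (show r1 ≤ V.card by omega)
        have hc2 : r2 ≤ (V \ V1).card := by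
          rw [card_sdiff_of_subset hV1]; omega
        obtain ⟨S, U, hSU⟩ := h1 α V1 ψ hc1.ge (hψ.mono hV1)
        have hUt : ∀ i : Fin (t + 1), U i t ⊆ V1 := fun i =>
          (hSU i t (Nat.lt_succ_iff.1 i.2) le_rfl).1
        have hdeg : Deg (G := Fin (t + 1) → G) k
            (fun γ (i : Fin (t + 1)) => ψ (U i t ∪ γ) - ψ γ) (V \ V1) := by
          refine Deg.pi (ψ := fun (i : Fin (t + 1)) γ => ψ (U i t ∪ γ) - ψ γ) fun i => ?_
          exact (hψ (U i t) ((hUt i).trans hV1)).mono (sdiff_subset_sdiff (Subset.refl V) (hUt i))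
        obtain ⟨B, hB, hBne, hBe⟩ := h2 α (V \ V1) _ hc2 hdeg
        have hadd : ∀ i ≤ t, ψ (U i t ∪ B) - ψ B = ψ (U i t) - ψ ∅ := by
          intro i hi
          have := congrFun hBe ⟨i, Nat.lt_succ_of_le hi⟩
          simpa using this
        refine ⟨fun j => if j = t + 1 then S t + (ψ B - ψ ∅) else S j,
          fun i j => if j = t + 1 then (if i = t + 1 then ∅ else U i t ∪ B) else U i j, ?_⟩
        intro i j hij hj
        by_cases hjt : j = t + 1
        · subst hjt
          by_cases hit : i = t + 1
          · subst hit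
            simp
          · have hi : i ≤ t := by omega
            simp only [if_true, hit, if_false]
            refine ⟨union_subset (((hSU i t hi le_rfl).1).trans hV1) (hB.trans sdiff_subset),
              fun _ => hBne.mono subset_union_right, ?_⟩
            have e1 := hadd i hi
            have e2 := (hSU i t hi le_rfl).2.2
            have : ψ (U i t ∪ B) - ψ ∅ = (ψ (U i t ∪ B) - ψ B) + (ψ B - ψ ∅) := by abel
            rw [this, e1, e2]
            abel
        · have hj' : j ≤ t := by omega
          have hit : i ≠ t + 1 := by omega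
          simp only [hjt, if_false, hit]
          obtain ⟨a, b, c⟩ := hSU i j hij hj'
          exact ⟨a.trans hV1, b, c⟩
    obtain ⟨r, hr⟩ := key (Fintype.card G)
    refine ⟨r, fun α _ V ψ hV hψ => ?_⟩
    obtain ⟨S, U, hSU⟩ := hr α V ψ hV hψ
    -- pigeonhole
    have : ∃ i j : Fin (Fintype.card G + 1), i < j ∧ S i = S j := by
      obtain ⟨i, j, hne, he⟩ := Fintype.exists_ne_map_eq_of_card_lt
        (fun i : Fin (Fintype.card G + 1) => S i) (by simp)
      rcases lt_or_gt_of_ne hne with h | h
      · exact ⟨i, j, h, he⟩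
      · exact ⟨j, i, h, he.symm⟩
    obtain ⟨i, j, hij, he⟩ := this
    obtain ⟨a, b, c⟩ := hSU i j (le_of_lt hij) (Nat.lt_succ_iff.1 j.2)
    refine ⟨U i j, a, b hij, ?_⟩
    rw [he, sub_self, sub_eq_zero] at c
    exact c

end Pool.Agent.H720R3
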