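import Mathlib

set_option autoImplicit false

namespace Pool.Agent.H720R3

open Finset

variable {α : Type} [DecidableEq α]

/-- the `d`-th Cartesian power of `γ`, as a finite set of `d`-tuples -/
abbrev pw (d : ℕ) (γ : Finset α) : Finset (Fin d → α) := Fintype.piFinset (fun _ : Fin d => γ)

/-- `X` and `Y` differ by adding a `d`-th power of a nonempty set -/
def Up (d : ℕ) (X Y : Finset (Fin d → α)) : Prop :=
  ∃ γ : Finset α, γ.Nonempty ∧ Disjoint X (pw d γ) ∧ Y = X ∪ pw d γ

def Adj (d : ℕ) (X Y : Finset (Fin d → α)) : Prop := Up d X Y ∨ Up d Y X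

lemma Adj.symm {d : ℕ} {X Y : Finset (Fin d → α)} (h : Adj d X Y) : Adj d Y X := h.elim Or.inr Or.inl

/-- walks in the graph of `Adj` -/
inductive Walk (d : ℕ) : ℕ → Finset (Fin d → α) → Finset (Fin d → α) → Prop
  | nil (X : Finset (Fin d → α)) : Walk d 0 X X
  | cons {k : ℕ} {X Y Z : Finset (Fin d → α)} : Adj d X Y → Walk d k Y Z → Walk d (k+1) X Z

lemma Walk.append {d k l : ℕ} {X Y Z : Finset (Fin d → α)} (h : Walk d k X Y) (h' : Walk d l Y Z) :
    Walk d (k + l) X Z := by
  induction h with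
  | nil X => simpa using h'
  | cons a w ih =>
    have := Walk.cons a (ih h')
    rw [show ∀ k : ℕ, k + 1 + l = k + l + 1 from fun k => by omega]
    exact this

lemma Walk.snoc {d k : ℕ} {X Y Z : Finset (Fin d → α)} (h : Walk d k X Y) (h' : Adj d Y Z) :
    Walk d (k + 1) X Z := h.append (Walk.cons h' (Walk.nil Z))

lemma Walk.symm {d k : ℕ} {X Y : Finset (Fin d → α)} (h : Walk d k X Y) : Walk d k Y X := by
  induction h with
  | nil X => exact Walk.nil X
  | cons a w ih => exact ih.snoc a.symm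

/-- the tuples with values in `V` missing some element of `L` -/
def bd (d : ℕ) (V L : Finset α) : Finset (Fin d → α) := L.biUnion (fun j => pw d (V.erase j))

lemma mem_pw {d : ℕ} {γ : Finset α} {x : Fin d → α} : x ∈ pw d γ ↔ ∀ i, x i ∈ γ := by
  simp [pw]

lemma mem_bd {d : ℕ} {V L : Finset α} {x : Fin d → α} :
    x ∈ bd d V L ↔ ∃ j ∈ L, ∀ i, x i ∈ V.erase j := by
  simp [bd]

/-- core step -/
lemma step {d : ℕ} (V L : Finset α) (j : α) (a b : ℕ)
    (h1 : ∀ X : Finset (Fin d → α), Disjoint X (bd d V L) → Walk d a X (X ∪ bd d V L))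
    (h2 : ∀ X : Finset (Fin d → α), Disjoint X (bd d (V.erase j) L) →
      Walk d b X (X ∪ bd d (V.erase j) L))
    (hne : (V.erase j).Nonempty)
    (X : Finset (Fin d → α)) (hX : Disjoint X (bd d V (insert j L))) :
    Walk d (a + b + 1) X (X ∪ bd d V (insert j L)) := by
  have hXL : Disjoint X (bd d V L) := by
    refine Finset.disjoint_of_subset_right ?_ hX
    intro x hx
    rw [mem_bd] at hx ⊢
    obtain ⟨l, hl, h⟩ := hx
    exact ⟨l, mem_insert_of_mem hl, h⟩
  have w1 := h1 X hXL
  set Y := (X ∪ bd d V L) \ bd d (V.erase j) L with hY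
  have hsub : bd d (V.erase j) L ⊆ X ∪ bd d V L := by
    intro x hx
    rw [mem_bd] at hx
    obtain ⟨l, hl, h⟩ := hx
    rw [mem_union, mem_bd]
    right
    refine ⟨l, hl, fun i => ?_⟩
    have := h i
    rw [mem_erase] at this ⊢
    exact ⟨this.1, (mem_erase.1 this.2).2⟩
  have w2 := h2 Y (by rw [hY]; exact sdiff_disjoint)
  have hYu : Y ∪ bd d (V.erase j) L = X ∪ bd d V L := by
    rw [hY]; exact sdiff_union_of_subset hsub
  rw [hYu] at w2
  have w3 : Adj d Y (Y ∪ pw d (V.erase j)) := by
    left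
    refine ⟨V.erase j, hne, ?_, rfl⟩
    rw [Finset.disjoint_left]
    intro x hx hx'
    rw [hY, mem_sdiff, mem_union] at hx
    rw [mem_pw] at hx'
    obtain ⟨h | h, h'⟩ := hx
    · rw [Finset.disjoint_left] at hX
      exact hX h (mem_bd.2 ⟨j, mem_insert_self _ _, hx'⟩)
    · apply h'
      rw [mem_bd] at h ⊢
      obtain ⟨l, hl, h⟩ := h
      refine ⟨l, hl, fun i => ?_⟩
      rw [mem_erase]
      exact ⟨(mem_erase.1 (h i)).1, hx' i⟩
  have hfin : Y ∪ pw d (V.erase j) = X ∪ bd d V (insert j L) := by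
    ext x
    simp only [hY, mem_union, mem_sdiff, mem_pw, mem_bd, mem_insert]
    constructor
    · rintro (⟨h | ⟨l, hl, h⟩, -⟩ | h)
      · exact Or.inl h
      · exact Or.inr ⟨l, Or.inr hl, h⟩
      · exact Or.inr ⟨j, Or.inl rfl, h⟩
    · rintro (h | ⟨l, hl | hl, h⟩)
      · by_cases h5 : ∀ i, x i ∈ V.erase j
        · exact Or.inr h5
        · left
          refine ⟨Or.inl h, ?_⟩
          rintro ⟨l, hl, h6⟩
          exact h5 fun i => (mem_erase.1 (h6 i)).2
      · subst hl
        exact Or.inr h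
      · by_cases h5 : ∀ i, x i ∈ V.erase j
        · exact Or.inr h5
        · left
          refine ⟨Or.inr ⟨l, hl, h⟩, ?_⟩
          rintro ⟨l, hl, h6⟩
          exact h5 fun i => (mem_erase.1 (h6 i)).2
  rw [hfin] at w3
  exact (w1.append w2.symm).snoc w3

lemma walk_proper {d : ℕ} (L : Finset α) : ∀ V : Finset α, L ⊂ V →
    ∀ X : Finset (Fin d → α), Disjoint X (bd d V L) →
      Walk d (2 ^ L.card - 1) X (X ∪ bd d V L) := by
  induction L using Finset.induction_on with
  | empty =>
    intro V _ X _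
    have : bd d V ∅ = ∅ := by simp [bd]
    rw [this]
    simpa using Walk.nil X
  | insert j L hj ih =>
    intro V hV X hX
    have hL : L ⊂ V := lt_of_le_of_lt (subset_insert j L) hV
    have hL' : L ⊂ V.erase j := by
      obtain ⟨hs, hn⟩ := Finset.ssubset_iff_subset_ne.1 hV
      obtain ⟨v, hv, hv'⟩ := Finset.exists_of_ssubset hV
      rw [mem_insert, not_or] at hv'
      refine Finset.ssubset_iff_subset_ne.2 ⟨?_, ?_⟩
      · intro l hl
        rw [mem_erase]
        exact ⟨fun h => hj (h ▸ hl), hs (mem_insert_of_mem hl)⟩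
      · intro h
        exact hv'.2 (h ▸ mem_erase.2 ⟨hv'.1, hv⟩)
    have hne : (V.erase j).Nonempty := by
      obtain ⟨v, hv, -⟩ := Finset.exists_of_ssubset hL'
      exact ⟨v, hv⟩
    have := step V L j _ _ (ih V hL) (ih _ hL') hne X hX
    rw [card_insert_of_notMem hj]
    have e : 2 ^ (L.card + 1) - 1 = (2 ^ L.card - 1) + (2 ^ L.card - 1) + 1 := by
      have : 0 < 2 ^ L.card := by positivity
      rw [pow_succ]; omega
    rw [e]
    exact this

lemma walk_full {d : ℕ} (hd : 1 ≤ d) (n : ℕ) : ∀ V : Finset α, V.card = n + 1 →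
    ∀ X : Finset (Fin d → α), Disjoint X (bd d V V) →
      Walk d (2 ^ (n + 1) - 2) X (X ∪ bd d V V) := by
  induction n with
  | zero =>
    intro V hV X _
    obtain ⟨v, rfl⟩ := Finset.card_eq_one.1 hV
    have : bd d ({v} : Finset α) {v} = ∅ := by
      ext x
      simp only [mem_bd, mem_singleton, exists_eq_left, mem_erase, notMem_empty, iff_false]
      intro h
      exact (h ⟨0, hd⟩).1 (h ⟨0, hd⟩).2
    rw [this]
    simpa using Walk.nil X
  | succ n ih =>
    intro V hV X hX
    have hVne : V.Nonempty := by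
      rw [← Finset.card_pos]; omega
    obtain ⟨j, hj⟩ := hVne
    have hins : insert j (V.erase j) = V := insert_erase hj
    have hcard : (V.erase j).card = n + 1 := by
      rw [card_erase_of_mem hj]; omega
    have hne : (V.erase j).Nonempty := by rw [← Finset.card_pos]; omega
    have h1 := walk_proper (d := d) (V.erase j) V (erase_ssubset hj)
    have h2 := ih (V.erase j) hcard
    have := step V (V.erase j) j _ _ h1 h2 hne X (by rw [hins]; exact hX)
    rw [hins, hcard] at this
    have e : 2 ^ (n + 1 + 1) - 2 = (2 ^ (n + 1) - 1) + (2 ^ (n + 1) - 2) + 1 := by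
      have : 2 ≤ 2 ^ (n + 1) := by
        calc 2 = 2 ^ 1 := by norm_num
          _ ≤ 2 ^ (n + 1) := Nat.pow_le_pow_right (by norm_num) (by omega)
      rw [pow_succ 2 (n+1)]; omega
    rw [e]
    exact this

/-- a closed walk of length `2^(d+1) - 1` through sets of `d`-tuples from a set of `d + 1` elements -/
lemma closed_walk {d : ℕ} (hd : 1 ≤ d) :
    Walk d (2 ^ (d + 1) - 1) (∅ : Finset (Fin d → Fin (d + 1))) ∅ := by
  have h := walk_full hd d (univ : Finset (Fin (d + 1))) (by simp) ∅ (by simp)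
  have hbd : bd d (univ : Finset (Fin (d + 1))) univ = univ := by
    ext x
    simp only [mem_bd, mem_univ, true_and, iff_true, mem_erase, and_true]
    have : ¬ Function.Surjective x := by
      intro hs
      have := Fintype.card_le_of_surjective x hs
      simp at this
    rw [Function.Surjective] at this
    push Not at this
    obtain ⟨j, hj⟩ := this
    exact ⟨j, hj⟩
  rw [hbd, empty_union] at h
  have hlast : Adj d (univ : Finset (Fin d → Fin (d + 1))) ∅ := by
    right
    refine ⟨univ, univ_nonempty, by simp, ?_⟩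
    ext x
    simp [mem_pw]
  have e : 2 ^ (d + 1) - 1 = (2 ^ (d + 1) - 2) + 1 := by
    have : 2 ≤ 2 ^ (d + 1) := by
      calc 2 = 2 ^ 1 := by norm_num
        _ ≤ 2 ^ (d + 1) := Nat.pow_le_pow_right (by norm_num) (by omega)
    omega
  rw [e]
  exact h.snoc hlast

/-- a walk as a function -/
lemma Walk.fn {d k : ℕ} {X Y : Finset (Fin d → α)} (h : Walk d k X Y) :
    ∃ w : ℕ → Finset (Fin d → α), w 0 = X ∧ w k = Y ∧ ∀ i < k, Adj d (w i) (w (i + 1)) := by
  induction h with
  | nil X => exact ⟨fun _ => X, rfl, rfl, fun i hi => absurd hi (Nat.not_lt_zero i)⟩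
  | @cons k X Y Z a w ih =>
    obtain ⟨u, h0, hk, hu⟩ := ih
    refine ⟨fun i => if i = 0 then X else u (i - 1), by simp, by simp [hk], ?_⟩
    intro i hi
    rcases Nat.eq_zero_or_pos i with rfl | hpos
    · simpa [h0] using a
    · have e1 : i ≠ 0 := by omega
      have e2 : i + 1 ≠ 0 := by omega
      simp only [e1, e2, if_false]
      have := hu (i - 1) (by omega)
      rw [show i - 1 + 1 = i from by omega] at this
      simpa using this

end Pool.Agent.H720R3
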