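import Mathlib
import Pool.Agent.H720R3.Walk
import Pool.Agent.H720R3.Conc
import Pool.Agent.H720R3.Poly

set_option autoImplicit false

namespace Pool.Agent.H720R3

open Finset

section blocks

variable {n M N d : ℕ}

/-- the `j`-th block of `n` elements -/
def e (h : M * n ≤ N) (j : Fin M) (i : Fin n) : Fin N :=
  ⟨j * n + i, by
    have h1 : (j : ℕ) * n + i < (j + 1) * n := by
      have := i.2
      rw [add_mul, one_mul]; omega
    have h2 : ((j : ℕ) + 1) * n ≤ M * n := Nat.mul_le_mul_right n j.2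
    omega⟩

lemma e_inj (h : M * n ≤ N) {j k : Fin M} {i l : Fin n} (he : e h j i = e h k l) :
    j = k ∧ i = l := by
  have h1 : (j : ℕ) * n + i = k * n + l := by
    have := congrArg Fin.val he
    exact this
  have hn : 0 < n := lt_of_le_of_lt (Nat.zero_le _) i.2
  have h2 : (j : ℕ) = k := by
    have a := Nat.add_mul_div_right (i : ℕ) j hn
    have b := Nat.add_mul_div_right (l : ℕ) k hn
    rw [Nat.div_eq_of_lt i.2] at a
    rw [Nat.div_eq_of_lt l.2] at b
    have : (i : ℕ) + j * n = l + k * n := by omega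
    rw [this] at a
    omega
  refine ⟨Fin.ext h2, Fin.ext ?_⟩
  rw [h2] at h1
  omega

def T (h : M * n ≤ N) (j : Fin M) : Finset (Fin N) := univ.image (e h j)

lemma card_T (h : M * n ≤ N) (j : Fin M) : (T h j).card = n := by
  rw [T, card_image_of_injective _ fun a b hab => (e_inj h hab).2]
  simp

lemma T_disj (h : M * n ≤ N) {j k : Fin M} (hjk : j ≠ k) : Disjoint (T h j) (T h k) := by
  rw [Finset.disjoint_left]
  intro x hx hx'
  rw [T, mem_image] at hx hx'
  obtain ⟨i, -, hi⟩ := hx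
  obtain ⟨l, -, hl⟩ := hx'
  exact hjk (e_inj h (hi.trans hl.symm)).1

def C (d : ℕ) (h : M * n ≤ N) (j : Fin M) : Finset (Fin d → Fin N) := pw d (T h j)

lemma card_C (h : M * n ≤ N) (j : Fin M) : (C d h j).card = n ^ d := by
  rw [C, pw, Fintype.card_piFinset]
  simp [card_T]

lemma C_disj (hd : 1 ≤ d) (h : M * n ≤ N) (j k : Fin M) (hjk : j ≠ k) :
    Disjoint (C d h j) (C d h k) := by
  rw [Finset.disjoint_left]
  intro x hx hx'
  rw [C, mem_pw] at hx hx'
  exact (Finset.disjoint_left.1 (T_disj h hjk)) (hx ⟨0, hd⟩) (hx' ⟨0, hd⟩)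

/-- transport of a set of tuples to the `j`-th block -/
def tr (d : ℕ) (h : M * n ≤ N) (j : Fin M) (X : Finset (Fin d → Fin n)) :
    Finset (Fin d → Fin N) := X.image (fun x i => e h j (x i))

lemma tr_sub (h : M * n ≤ N) (j : Fin M) (X : Finset (Fin d → Fin n)) : tr d h j X ⊆ C d h j := by
  intro y hy
  rw [tr, mem_image] at hy
  obtain ⟨x, -, rfl⟩ := hy
  rw [C, mem_pw]
  intro i
  rw [T, mem_image]
  exact ⟨x i, mem_univ _, rfl⟩

lemma tr_inj (h : M * n ≤ N) (j : Fin M) :
    Function.Injective (fun (x : Fin d → Fin n) i => e h j (x i)) := by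
  intro x y hxy
  funext i
  exact (e_inj h (congrFun hxy i)).2

lemma tr_union (h : M * n ≤ N) (j : Fin M) (X Y : Finset (Fin d → Fin n)) :
    tr d h j (X ∪ Y) = tr d h j X ∪ tr d h j Y := image_union _ _

lemma tr_pw (h : M * n ≤ N) (j : Fin M) (γ : Finset (Fin n)) :
    tr d h j (pw d γ) = pw d (γ.image (e h j)) := by
  ext y
  rw [tr, mem_image, mem_pw]
  constructor
  · rintro ⟨x, hx, rfl⟩ i
    rw [mem_pw] at hx
    exact mem_image_of_mem _ (hx i)
  · intro hy
    choose x hx hxy using fun i => mem_image.1 (hy i)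
    exact ⟨x, mem_pw.2 hx, funext hxy⟩

lemma adj_tr (h : M * n ≤ N) (j : Fin M) (R : Finset (Fin d → Fin N)) (hR : Disjoint R (C d h j))
    {X Y : Finset (Fin d → Fin n)} (hXY : Up d X Y) :
    Up d (R ∪ tr d h j X) (R ∪ tr d h j Y) := by
  obtain ⟨γ, hγ, hdis, rfl⟩ := hXY
  refine ⟨γ.image (e h j), hγ.image _, ?_, ?_⟩
  · rw [← tr_pw, disjoint_union_left]
    refine ⟨Finset.disjoint_of_subset_right (tr_sub h j _) hR, ?_⟩
    exact (disjoint_image (tr_inj h j)).2 hdis
  · rw [← tr_pw, tr_union, union_assoc]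

end blocks

/-- fibre count by the part outside the block -/
lemma fibre {E : Type} [Fintype E] [DecidableEq E] (S : Finset (Finset E)) (C P : Finset E)
    (hP : P ⊆ C) :
    (∑ A ∈ S, if A ∩ C = P then (1 : ℝ) else 0)
      = ∑ R ∈ univ.filter (fun R : Finset E => R ∩ C = ∅), if R ∪ P ∈ S then (1 : ℝ) else 0 := by
  rw [Finset.sum_boole, Finset.sum_boole]
  congr 1
  refine Finset.card_bij' (fun A _ => A \ C) (fun R _ => R ∪ P) ?_ ?_ ?_ ?_
  · intro A hA
    rw [mem_filter] at hA
    have h1 : A \ C ∪ P = A := by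
      rw [← hA.2]
      ext x
      simp only [mem_union, mem_sdiff, mem_inter]
      tauto
    rw [mem_filter, mem_filter]
    refine ⟨⟨mem_univ _, ?_⟩, ?_⟩
    · ext x; simp
    · rw [h1]; exact hA.1
  · intro R hR
    rw [mem_filter, mem_filter] at hR
    rw [mem_filter]
    refine ⟨hR.2, ?_⟩
    rw [union_inter_distrib_right, hR.1.2, empty_union]
    exact inter_eq_left.2 hP
  · intro A hA
    rw [mem_filter] at hA
    rw [← hA.2]
    ext x
    simp only [mem_union, mem_sdiff, mem_inter]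
    tauto
  · intro R hR
    rw [mem_filter, mem_filter] at hR
    ext x
    have h2 : x ∈ R → x ∉ C := by
      intro h3 h4
      have : x ∈ R ∩ C := mem_inter.2 ⟨h3, h4⟩
      rw [hR.1.2] at this
      exact absurd this (notMem_empty x)
    have h5 : x ∈ P → x ∈ C := fun h => hP h
    simp only [mem_union, mem_sdiff]
    tauto

/-- closed odd walk count -/
lemma odd_count (q : ℕ) (f : ℕ → ℝ) (h01 : ∀ i, f i = 0 ∨ f i = 1)
    (hadj : ∀ i < 2 * q + 1, f i + f (i + 1) ≤ 1) (hclosed : f (2 * q + 1) = f 0) :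
    ∑ i ∈ range (2 * q + 1), f i ≤ q := by
  have h1 : ∑ i ∈ range (2 * q + 1), f (i + 1) = ∑ i ∈ range (2 * q + 1), f i := by
    have a := Finset.sum_range_succ f (2 * q + 1)
    have b := Finset.sum_range_succ' f (2 * q + 1)
    rw [a] at b
    linarith
  have h2 : ∑ i ∈ range (2 * q + 1), (f i + f (i + 1)) ≤ ∑ _i ∈ range (2 * q + 1), (1 : ℝ) :=
    sum_le_sum fun i hi => hadj i (mem_range.1 hi)
  rw [sum_add_distrib, h1] at h2
  simp only [sum_const, card_range, nsmul_eq_mul, mul_one] at h2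
  -- integrality
  have h3 : ∃ z : ℕ, ∑ i ∈ range (2 * q + 1), f i = z := by
    refine ⟨((range (2 * q + 1)).filter (fun i => f i = 1)).card, ?_⟩
    rw [card_filter]
    push_cast
    refine sum_congr rfl fun i _ => ?_
    rcases h01 i with h | h
    · rw [h]; simp
    · rw [h]; simp
  obtain ⟨z, hz⟩ := h3
  rw [hz] at h2 ⊢
  have h4 : z + z ≤ 2 * q + 1 := by exact_mod_cast h2
  have h5 : z ≤ q := by omega
  exact_mod_cast h5

end Pool.Agent.H720R3
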