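import Mathlib
import Pool.Agent.H720R3.Blocks

set_option autoImplicit false

namespace Pool.Agent.H720R3

open Finset

/-- two sided second moment bound -/
lemma conc_upper {E : Type} [Fintype E] [DecidableEq E] {M c : ℕ} (C P : Fin M → Finset E)
    (hP : ∀ j, P j ⊆ C j)
    (hc : ∀ j, (C j).card = c) (hdis : ∀ j k, j ≠ k → Disjoint (C j) (C k))
    (S : Finset (Finset E)) :
    ∑ A ∈ S, cnt C P A ≤
    (M : ℝ) / 2 ^ c * S.card + Real.sqrt ((M : ℝ) / 2 ^ c) * 2 ^ Fintype.card E := by
  have h1 := conc C P hP hc hdis Sᶜ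
  have h2 := sum_cnt C P hP hc
  have h3 : ∑ A : Finset E, cnt C P A = ∑ A ∈ S, cnt C P A + ∑ A ∈ Sᶜ, cnt C P A :=
    (sum_add_sum_compl S _).symm
  have h4 : (S.card : ℝ) + (Sᶜ.card : ℝ) = 2 ^ Fintype.card E := by
    have : S.card + Sᶜ.card = Fintype.card (Finset E) := card_add_card_compl S
    rw [Fintype.card_finset] at this
    exact_mod_cast this
  rw [h3] at h2
  have h5 : (M : ℝ) / 2 ^ c * 2 ^ Fintype.card E
      = (M : ℝ) / 2 ^ c * S.card + (M : ℝ) / 2 ^ c * Sᶜ.card := by
    rw [← h4]; ring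
  linarith

/-- planting a pattern: counting -/
lemma card_plant {E : Type} [Fintype E] [DecidableEq E] (D Q : Finset E) (hQ : Q ⊆ D)
    (S : Finset (Finset E)) :
    ((univ.filter (fun A : Finset E => A \ D ∪ Q ∈ S)).card : ℝ)
      = 2 ^ D.card * ∑ A ∈ S, (if A ∩ D = Q then (1 : ℝ) else 0) := by
  rw [Finset.sum_boole]
  have h1 : (univ.filter (fun A : Finset E => A \ D ∪ Q ∈ S)).card
      = (D.powerset ×ˢ (S.filter (fun A => A ∩ D = Q))).card := by
    refine Finset.card_bij' (fun A _ => (A ∩ D, A \ D ∪ Q)) (fun p _ => p.2 \ D ∪ p.1) ?_ ?_ ?_ ?_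
    · intro A hA
      rw [mem_filter] at hA
      rw [mem_product, mem_powerset, mem_filter]
      refine ⟨inter_subset_right, hA.2, ?_⟩
      ext x
      have : x ∈ Q → x ∈ D := fun h => hQ h
      simp only [mem_inter, mem_union, mem_sdiff]
      tauto
    · rintro ⟨P, B⟩ hp
      rw [mem_product, mem_powerset, mem_filter] at hp
      obtain ⟨hP, hB, hBD⟩ := hp
      simp only at hP hB hBD ⊢
      rw [mem_filter]
      refine ⟨mem_univ _, ?_⟩
      have : (B \ D ∪ P) \ D ∪ Q = B := by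
        rw [← hBD]
        ext x
        have : x ∈ P → x ∈ D := fun h => hP h
        simp only [mem_inter, mem_union, mem_sdiff]
        tauto
      rw [this]
      exact hB
    · intro A _
      ext x
      have : x ∈ Q → x ∈ D := fun h => hQ h
      simp only [mem_inter, mem_union, mem_sdiff]
      tauto
    · rintro ⟨P, B⟩ hp
      rw [mem_product, mem_powerset, mem_filter] at hp
      obtain ⟨hP, hB, hBD⟩ := hp
      simp only at hP hB hBD ⊢
      refine Prod.ext ?_ ?_
      · ext x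
        have : x ∈ P → x ∈ D := fun h => hP h
        simp only [mem_inter, mem_union, mem_sdiff]
        tauto
      · rw [← hBD]
        ext x
        have : x ∈ P → x ∈ D := fun h => hP h
        simp only [mem_inter, mem_union, mem_sdiff]
        tauto
  rw [h1, card_product, card_powerset]
  push_cast
  ring

/-- image of a set of tuples -/
def im {α β : Type} [DecidableEq β] {d : ℕ} (s : α → β) (B : Finset (Fin d → α)) :
    Finset (Fin d → β) := B.image (fun x i => s (x i))

lemma mem_im {α β : Type} [DecidableEq β] {d : ℕ} {s : α → β} {B : Finset (Fin d → α)}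
    {y : Fin d → β} : y ∈ im s B ↔ ∃ x ∈ B, (fun i => s (x i)) = y := by
  rw [im, mem_image]

lemma im_im {α β γ : Type} [DecidableEq β] [DecidableEq γ] {d : ℕ} (s : α → β) (t : β → γ)
    (B : Finset (Fin d → α)) : im t (im s B) = im (fun a => t (s a)) B := by
  rw [im, im, im, image_image]
  rfl

lemma im_union {α β : Type} [DecidableEq α] [DecidableEq β] {d : ℕ} (s : α → β)
    (B C : Finset (Fin d → α)) : im s (B ∪ C) = im s B ∪ im s C := image_union _ _

lemma im_congr {α β : Type} [DecidableEq β] {d : ℕ} {s t : α → β} {B : Finset (Fin d → α)}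
    (h : ∀ x ∈ B, ∀ i, s (x i) = t (x i)) : im s B = im t B := by
  refine image_congr fun x hx => ?_
  funext i
  exact h x hx i

/-- `γ^d` -/
def ic (d : ℕ) (n : ℕ) : Finset (Fin d → ℕ) := Fintype.piFinset (fun _ : Fin d => range n)

lemma mem_ic {d n : ℕ} {x : Fin d → ℕ} : x ∈ ic d n ↔ ∀ i, x i < n := by
  simp [ic, Fintype.mem_piFinset]

lemma card_ic {d n : ℕ} : (ic d n).card = n ^ d := by
  simp [ic, Fintype.card_piFinset]

/-- the core of the argument for one fixed arrangement `s` -/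
lemma core {N d : ℕ} (hd : 1 ≤ d) (S : Finset (Finset (Fin d → Fin N)))
    (s : ℕ → Fin N) (hs : ∀ a < N, ∀ b < N, s a = s b → a = b)
    (n₀ n M : ℕ) (hM : 0 < M) (hN : n₀ + M * n ≤ N)
    (T : Fin n₀ → ℕ) (hTn : ∀ i, T i < n)
    (R : Finset (Fin d → ℕ)) (hRn : R ⊆ ic d n) (hRT : ∀ x ∈ R, ∃ i, ∀ k, T k ≠ x i)
    (φ : Fin M → ℕ → ℕ) (hφT : ∀ j k, φ j (T k) = k)
    (hφ : ∀ j l, (∀ k, T k ≠ l) → φ j l = n₀ + j * n + l)
    (F : Finset (Finset (Fin d → Fin n₀))) :
    |(∑ j : Fin M, ((univ.filter (fun A : Finset (Fin d → Fin N) =>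
        ∀ A' : Finset (Fin d → Fin n₀), A' ∈ F ↔
          (A \ im (fun l => s (φ j l)) (ic d n)) ∪ im (fun l => s (φ j l)) (im T A' ∪ R) ∈ S)).card : ℝ))
      - M * ((univ.filter (fun A : Finset (Fin d → Fin N) =>
        ∀ A' : Finset (Fin d → Fin n₀), A' ∈ F ↔
          (A \ im s (ic d n₀)) ∪ im s (im Fin.val A') ∈ S)).card : ℝ)|
      ≤ M * (Real.sqrt (2 ^ (n ^ d) / M) * 2 ^ (N ^ d)) := by
  classical
  set K : Finset (Fin d → Fin N) := im s (ic d n₀) with hK
  set S' : Finset (Finset (Fin d → Fin N)) := univ.filter (fun A : Finset (Fin d → Fin N) =>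
        ∀ A' : Finset (Fin d → Fin n₀), A' ∈ F ↔ (A \ K) ∪ im s (im Fin.val A') ∈ S) with hS'
  let C : Fin M → Finset (Fin d → Fin N) := fun j => im (fun l => s (φ j l)) (ic d n)
  let D : Fin M → Finset (Fin d → Fin N) := fun j => C j \ K
  let Q : Fin M → Finset (Fin d → Fin N) := fun j => im (fun l => s (φ j l)) R
  -- range facts
  have hn₀N : n₀ ≤ N := by omega
  have hlt : ∀ (j : Fin M) l, l < n → n₀ + j * n + l < N := by
    intro j l hl
    have h2 : ((j : ℕ) + 1) * n ≤ M * n := Nat.mul_le_mul_right n j.2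
    rw [add_mul, one_mul] at h2
    omega
  have hφN : ∀ (j : Fin M) l, l < n → φ j l < N := by
    intro j l hl
    by_cases h : ∃ k, T k = l
    · obtain ⟨k, rfl⟩ := h
      rw [hφT]
      have := k.2
      omega
    · push Not at h
      rw [hφ j l h]
      exact hlt j l hl
  have hφinj : ∀ (j : Fin M) l m, l < n → m < n → φ j l = φ j m → l = m := by
    intro j l m hl hm h
    by_cases h1 : ∃ k, T k = l
    · obtain ⟨k, rfl⟩ := h1
      by_cases h2 : ∃ k, T k = m
      · obtain ⟨k', rfl⟩ := h2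
        rw [hφT, hφT] at h
        rw [Fin.ext h]
      · push Not at h2
        rw [hφT, hφ j m h2] at h
        have := k.2
        omega
    · push Not at h1
      by_cases h2 : ∃ k, T k = m
      · obtain ⟨k', rfl⟩ := h2
        rw [hφT, hφ j l h1] at h
        have := k'.2
        omega
      · push Not at h2
        rw [hφ j l h1, hφ j m h2] at h
        omega
  have hKC : ∀ j, K ⊆ C j := by
    intro j x hx
    rw [hK, mem_im] at hx
    obtain ⟨y, hy, rfl⟩ := hx
    rw [mem_ic] at hy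
    simp only [C]
    rw [mem_im]
    refine ⟨fun i => T ⟨y i, hy i⟩, mem_ic.2 fun i => hTn _, ?_⟩
    funext i
    simp only
    rw [hφT]
  have hQK : ∀ j, Disjoint (Q j) K := by
    intro j
    rw [Finset.disjoint_left]
    intro x hx hx'
    simp only [Q] at hx
    rw [mem_im] at hx
    rw [hK, mem_im] at hx'
    obtain ⟨y, hy, rfl⟩ := hx
    obtain ⟨z, hz, hzy⟩ := hx'
    obtain ⟨i, hi⟩ := hRT y hy
    have h1 := congrFun hzy i
    have hyi := mem_ic.1 (hRn hy) i
    have hzi := mem_ic.1 hz i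
    have h2 := hs _ (by omega) _ (hφN j _ hyi) h1
    rw [hφ j _ hi] at h2
    omega
  have hQC : ∀ j, Q j ⊆ C j := fun j => image_subset_image hRn
  have hQD : ∀ j, Q j ⊆ D j := by
    intro j x hx
    exact mem_sdiff.2 ⟨hQC j hx, fun h => (Finset.disjoint_left.1 (hQK j)) hx h⟩
  have hCcard : ∀ j, (C j).card = n ^ d := by
    intro j
    simp only [C]
    rw [im, card_image_of_injOn, card_ic]
    intro x hx y hy hxy
    have hx' := mem_ic.1 (mem_coe.1 hx)
    have hy' := mem_ic.1 (mem_coe.1 hy)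
    funext i
    have h1 := congrFun hxy i
    simp only at h1
    exact hφinj j _ _ (hx' i) (hy' i) (hs _ (hφN j _ (hx' i)) _ (hφN j _ (hy' i)) h1)
  have hDcard : ∀ j, (D j).card = n ^ d - K.card := by
    intro j
    simp only [D]
    rw [card_sdiff_of_subset (hKC j), hCcard]
  have hDdis : ∀ j k, j ≠ k → Disjoint (D j) (D k) := by
    intro j k hjk
    rw [Finset.disjoint_left]
    intro x hx hx'
    simp only [D, C] at hx hx'
    rw [mem_sdiff, mem_im] at hx hx'
    obtain ⟨⟨y, hy, rfl⟩, hyK⟩ := hx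
    obtain ⟨⟨z, hz, hzy⟩, -⟩ := hx'
    have hy' := mem_ic.1 hy
    have hz' := mem_ic.1 hz
    have h1 : ∃ i, ∀ k, T k ≠ y i := by
      by_contra hcon
      push Not at hcon
      choose κ hκ using hcon
      apply hyK
      rw [hK, mem_im]
      refine ⟨fun i => κ i, mem_ic.2 fun i => (κ i).2, ?_⟩
      funext i
      simp only
      rw [← hκ i, hφT]
    obtain ⟨i, hi⟩ := h1
    have h2 := congrFun hzy i
    have h3 := hs _ (hφN k _ (hz' i)) _ (hφN j _ (hy' i)) h2
    rw [hφ j _ hi] at h3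
    by_cases h4 : ∃ m, T m = z i
    · obtain ⟨m, hm⟩ := h4
      rw [← hm, hφT] at h3
      have := m.2
      omega
    · push Not at h4
      rw [hφ k _ h4] at h3
      apply hjk
      have hy1 := hy' i
      have hz1 := hz' i
      apply Fin.ext
      by_contra hne
      rcases lt_or_gt_of_ne hne with h | h
      · have : ((j : ℕ) + 1) * n ≤ k * n := Nat.mul_le_mul_right n h
        rw [add_mul, one_mul] at this
        omega
      · have : ((k : ℕ) + 1) * n ≤ j * n := Nat.mul_le_mul_right n h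
        rw [add_mul, one_mul] at this
        omega
  -- rewriting the events
  have hev : ∀ j, (univ.filter (fun A : Finset (Fin d → Fin N) =>
        ∀ A' : Finset (Fin d → Fin n₀), A' ∈ F ↔
          (A \ im (fun l => s (φ j l)) (ic d n)) ∪ im (fun l => s (φ j l)) (im T A' ∪ R) ∈ S))
      = univ.filter (fun A : Finset (Fin d → Fin N) => A \ D j ∪ Q j ∈ S') := by
    intro j
    refine filter_congr fun A _ => ?_
    rw [hS', mem_filter]
    simp only [mem_univ, true_and]
    refine forall_congr' fun A' => ?_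
    have h1 : (A \ im (fun l => s (φ j l)) (ic d n)) ∪ im (fun l => s (φ j l)) (im T A' ∪ R)
        = ((A \ D j ∪ Q j) \ K) ∪ im s (im Fin.val A') := by
      have h2 : im (fun l => s (φ j l)) (im T A') = im s (im Fin.val A') := by
        rw [im_im, im_im]
        refine im_congr fun x _ i => ?_
        rw [hφT]
      rw [im_union, h2]
      change (A \ C j) ∪ (im s (im Fin.val A') ∪ Q j) = _
      ext x
      have h3 : x ∈ K → x ∈ C j := fun h => hKC j h
      have h4 : x ∈ Q j → x ∉ K := fun h => (Finset.disjoint_left.1 (hQK j)) h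
      simp only [D, mem_union, mem_sdiff]
      tauto
    rw [h1]
  have hcount : ∑ j : Fin M, ((univ.filter (fun A : Finset (Fin d → Fin N) =>
        ∀ A' : Finset (Fin d → Fin n₀), A' ∈ F ↔
          (A \ im (fun l => s (φ j l)) (ic d n)) ∪ im (fun l => s (φ j l)) (im T A' ∪ R) ∈ S)).card : ℝ)
      = 2 ^ (n ^ d - K.card) * ∑ A ∈ S', cnt D Q A := by
    unfold cnt
    rw [sum_comm, mul_sum]
    refine sum_congr rfl fun j _ => ?_
    rw [hev j, card_plant (D j) (Q j) (hQD j) S', hDcard]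
  rw [hcount]
  set c : ℕ := n ^ d - K.card with hc
  have hcle : c ≤ n ^ d := Nat.sub_le _ _
  have hup := conc_upper D Q hQD hDcard hDdis S'
  have hlo := conc D Q hQD hDcard hDdis S'
  have hW : (2 : ℝ) ^ Fintype.card (Fin d → Fin N) = 2 ^ (N ^ d) := by simp
  rw [hW] at hup hlo
  have hM' : (0 : ℝ) < M := by exact_mod_cast hM
  have h2c : (0 : ℝ) < 2 ^ c := by positivity
  have e1 : (2 : ℝ) ^ c * ((M : ℝ) / 2 ^ c * S'.card) = M * S'.card := by
    field_simp
  have e2 : (2 : ℝ) ^ c * Real.sqrt ((M : ℝ) / 2 ^ c) ≤ M * Real.sqrt (2 ^ (n ^ d) / M) := by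
    have e3 : (2 : ℝ) ^ c * Real.sqrt ((M : ℝ) / 2 ^ c) = Real.sqrt (M * 2 ^ c) := by
      rw [show (M : ℝ) * 2 ^ c = (2 ^ c) ^ 2 * (M / 2 ^ c) by field_simp,
        Real.sqrt_mul (by positivity), Real.sqrt_sq h2c.le]
    have e4 : (M : ℝ) * Real.sqrt (2 ^ (n ^ d) / M) = Real.sqrt (M * 2 ^ (n ^ d)) := by
      rw [show (M : ℝ) * 2 ^ (n ^ d) = M ^ 2 * (2 ^ (n ^ d) / M) by field_simp,
        Real.sqrt_mul (by positivity), Real.sqrt_sq hM'.le]
    rw [e3, e4]
    refine Real.sqrt_le_sqrt ?_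
    refine mul_le_mul_of_nonneg_left ?_ hM'.le
    exact pow_le_pow_right₀ (by norm_num) hcle
  have hWpos : (0 : ℝ) < 2 ^ (N ^ d) := by positivity
  have e5 : (2 : ℝ) ^ c * (Real.sqrt ((M : ℝ) / 2 ^ c) * 2 ^ (N ^ d))
      ≤ M * (Real.sqrt (2 ^ (n ^ d) / M) * 2 ^ (N ^ d)) := by
    rw [← mul_assoc, ← mul_assoc]
    exact mul_le_mul_of_nonneg_right e2 hWpos.le
  rw [abs_le]
  constructor
  · have := mul_le_mul_of_nonneg_left hlo h2c.le
    rw [mul_sub, e1] at this
    linarith
  · have := mul_le_mul_of_nonneg_left hup h2c.le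
    rw [mul_add, e1] at this
    linarith

end Pool.Agent.H720R3
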