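import Mathlib
import Pool.Agent.H720R3.Plant

set_option autoImplicit false

namespace Pool.Agent.H720R3

open Finset

/-- the arrangement given by a permutation -/
def sp {N : ℕ} [NeZero N] (π : Equiv.Perm (Fin N)) : ℕ → Fin N := fun l => π (Fin.ofNat N l)

lemma ofNat_inj {N : ℕ} [NeZero N] {a b : ℕ} (ha : a < N) (hb : b < N)
    (h : Fin.ofNat N a = Fin.ofNat N b) : a = b := by
  have h1 := congrArg Fin.val h
  simp only [Fin.ofNat] at h1
  rwa [Nat.mod_eq_of_lt ha, Nat.mod_eq_of_lt hb] at h1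

lemma sp_inj {N : ℕ} [NeZero N] (π : Equiv.Perm (Fin N)) :
    ∀ a < N, ∀ b < N, sp π a = sp π b → a = b := by
  intro a ha b hb h
  exact ofNat_inj ha hb (π.injective h)

lemma exists_perm {N : ℕ} [NeZero N] (n : ℕ) (hn : n ≤ N) (φ : ℕ → ℕ)
    (hφN : ∀ l < n, φ l < N) (hinj : ∀ l < n, ∀ m < n, φ l = φ m → l = m) :
    ∃ ρ : Equiv.Perm (Fin N), ∀ l < n, ρ (Fin.ofNat N l) = Fin.ofNat N (φ l) := by
  classical
  let g : {x : Fin N // x.val < n} → Fin N := fun x => Fin.ofNat N (φ x.1.val)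
  have hg : Function.Injective g := by
    intro x y hxy
    have h1 := ofNat_inj (hφN _ x.2) (hφN _ y.2) hxy
    exact Subtype.ext (Fin.ext (hinj _ x.2 _ y.2 h1))
  let e : {x : Fin N // x.val < n} ≃ {x : Fin N // x ∈ Set.range g} := Equiv.ofInjective g hg
  refine ⟨e.extendSubtype, fun l hl => ?_⟩
  have hv : (Fin.ofNat N l).val = l := by
    simp only [Fin.ofNat]
    exact Nat.mod_eq_of_lt (lt_of_lt_of_le hl hn)
  rw [Equiv.extendSubtype_apply_of_mem e (Fin.ofNat N l) (by rw [hv]; exact hl)]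
  change Fin.ofNat N (φ (Fin.ofNat N l).val) = _
  rw [hv]

lemma stage {N d : ℕ} [NeZero N] (hd : 1 ≤ d) (S : Finset (Finset (Fin d → Fin N)))
    (n₀ n M : ℕ) (hM : 0 < M) (hN : n₀ + M * n ≤ N) (hnN : n ≤ N)
    (T : Fin n₀ → ℕ) (hT : Function.Injective T) (hTn : ∀ i, T i < n)
    (R : Finset (Fin d → ℕ)) (hRn : R ⊆ ic d n) (hRT : ∀ x ∈ R, ∃ i, ∀ k, T k ≠ x i)
    (F : Finset (Finset (Fin d → Fin n₀))) :
    |((univ.filter (fun p : Equiv.Perm (Fin N) × Finset (Fin d → Fin N) =>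
        ∀ A' : Finset (Fin d → Fin n₀), A' ∈ F ↔
          (p.2 \ im (sp p.1) (ic d n)) ∪ im (sp p.1) (im T A' ∪ R) ∈ S)).card : ℝ)
      - ((univ.filter (fun p : Equiv.Perm (Fin N) × Finset (Fin d → Fin N) =>
        ∀ A' : Finset (Fin d → Fin n₀), A' ∈ F ↔
          (p.2 \ im (sp p.1) (ic d n₀)) ∪ im (sp p.1) (im Fin.val A') ∈ S)).card : ℝ)|
      ≤ Real.sqrt (2 ^ (n ^ d) / M) *
        Fintype.card (Equiv.Perm (Fin N) × Finset (Fin d → Fin N)) := by
  classical
  let φ : Fin M → ℕ → ℕ := fun j l =>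
    if h : ∃ k, T k = l then ((Classical.choose h : Fin n₀) : ℕ) else n₀ + j * n + l
  have hφT : ∀ j k, φ j (T k) = k := by
    intro j k
    have h : ∃ k', T k' = T k := ⟨k, rfl⟩
    simp only [φ]
    rw [dif_pos h]
    rw [hT (Classical.choose_spec h)]
  have hφ : ∀ j l, (∀ k, T k ≠ l) → φ j l = n₀ + j * n + l := by
    intro j l h
    simp only [φ]
    rw [dif_neg]
    push Not
    exact h
  have hlt : ∀ (j : Fin M) l, l < n → n₀ + j * n + l < N := by
    intro j l hl
    have h2 : ((j : ℕ) + 1) * n ≤ M * n := Nat.mul_le_mul_right n j.2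
    rw [add_mul, one_mul] at h2
    omega
  have hφN : ∀ (j : Fin M), ∀ l < n, φ j l < N := by
    intro j l hl
    by_cases h : ∃ k, T k = l
    · obtain ⟨k, rfl⟩ := h
      rw [hφT]
      have := k.2
      omega
    · push Not at h
      rw [hφ j l h]
      exact hlt j l hl
  have hφinj : ∀ (j : Fin M), ∀ l < n, ∀ m < n, φ j l = φ j m → l = m := by
    intro j l hl m hm h
    by_cases h1 : ∃ k, T k = l
    · obtain ⟨k, rfl⟩ := h1
      by_cases h2 : ∃ k, T k = m
      · obtain ⟨k', rfl⟩ := h2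
        rw [hφT, hφT] at h
        rw [Fin.ext h]
      · push Not at h2
        rw [hφT, hφ j m h2] at h
        have := k.2
        omega
    · push Not at h1
      by_cases h2 : ∃ k, T k = m
      · obtain ⟨k', rfl⟩ := h2
        rw [hφT, hφ j l h1] at h
        have := k'.2
        omega
      · push Not at h2
        rw [hφ j l h1, hφ j m h2] at h
        omega
  choose ρ hρ using fun j => exists_perm n hnN (φ j) (hφN j) (hφinj j)
  -- the two counts for one permutation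
  let a : Equiv.Perm (Fin N) → ℝ := fun π => ((univ.filter (fun A : Finset (Fin d → Fin N) =>
        ∀ A' : Finset (Fin d → Fin n₀), A' ∈ F ↔
          (A \ im (sp π) (ic d n)) ∪ im (sp π) (im T A' ∪ R) ∈ S)).card : ℝ)
  let b : Equiv.Perm (Fin N) → ℝ := fun π => ((univ.filter (fun A : Finset (Fin d → Fin N) =>
        ∀ A' : Finset (Fin d → Fin n₀), A' ∈ F ↔
          (A \ im (sp π) (ic d n₀)) ∪ im (sp π) (im Fin.val A') ∈ S)).card : ℝ)
  have ha : ((univ.filter (fun p : Equiv.Perm (Fin N) × Finset (Fin d → Fin N) =>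
        ∀ A' : Finset (Fin d → Fin n₀), A' ∈ F ↔
          (p.2 \ im (sp p.1) (ic d n)) ∪ im (sp p.1) (im T A' ∪ R) ∈ S)).card : ℝ) = ∑ π, a π := by
    rw [← Finset.sum_boole, Fintype.sum_prod_type]
    refine sum_congr rfl fun π _ => ?_
    simp only [a]
    rw [← Finset.sum_boole]
  have hb : ((univ.filter (fun p : Equiv.Perm (Fin N) × Finset (Fin d → Fin N) =>
        ∀ A' : Finset (Fin d → Fin n₀), A' ∈ F ↔
          (p.2 \ im (sp p.1) (ic d n₀)) ∪ im (sp p.1) (im Fin.val A') ∈ S)).card : ℝ)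
      = ∑ π, b π := by
    rw [← Finset.sum_boole, Fintype.sum_prod_type]
    refine sum_congr rfl fun π _ => ?_
    simp only [b]
    rw [← Finset.sum_boole]
  rw [ha, hb]
  have hsplit : ∀ j, ∑ π, a (π * ρ j) = ∑ π, a π := fun j =>
    Equiv.sum_comp (Equiv.mulRight (ρ j)) a
  have hTR : ∀ A' : Finset (Fin d → Fin n₀), im T A' ∪ R ⊆ ic d n := by
    intro A' x hx
    rw [mem_union] at hx
    rcases hx with hx | hx
    · rw [mem_im] at hx
      obtain ⟨y, -, rfl⟩ := hx
      exact mem_ic.2 fun i => hTn _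
    · exact hRn hx
  have hrho : ∀ j π (B : Finset (Fin d → ℕ)), B ⊆ ic d n →
      im (sp (π * ρ j)) B = im (fun l => sp π (φ j l)) B := by
    intro j π B hB
    refine im_congr fun x hx i => ?_
    change π (ρ j (Fin.ofNat N (x i))) = π (Fin.ofNat N (φ j (x i)))
    rw [hρ j _ (mem_ic.1 (hB hx) i)]
  have hcore : ∀ π, |(∑ j : Fin M, a (π * ρ j)) - M * b π|
      ≤ M * (Real.sqrt (2 ^ (n ^ d) / M) * 2 ^ (N ^ d)) := by
    intro π
    have h1 := core hd S (sp π) (sp_inj π) n₀ n M hM hN T hTn R hRn hRT φ hφT hφ F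
    have h2 : ∀ j : Fin M, a (π * ρ j) = ((univ.filter (fun A : Finset (Fin d → Fin N) =>
        ∀ A' : Finset (Fin d → Fin n₀), A' ∈ F ↔
          (A \ im (fun l => sp π (φ j l)) (ic d n)) ∪
            im (fun l => sp π (φ j l)) (im T A' ∪ R) ∈ S)).card : ℝ) := by
      intro j
      simp only [a]
      congr 2
      refine filter_congr fun A _ => ?_
      refine forall_congr' fun A' => ?_
      rw [hrho j π _ (subset_refl _), hrho j π _ (hTR A')]
    rw [sum_congr rfl fun j _ => h2 j]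
    exact h1
  have hM' : (0 : ℝ) < M := by exact_mod_cast hM
  have h3 : (M : ℝ) * (∑ π, a π - ∑ π, b π) = ∑ π, ((∑ j : Fin M, a (π * ρ j)) - M * b π) := by
    rw [sum_sub_distrib, sum_comm, sum_congr rfl fun j _ => hsplit j, ← mul_sum]
    simp
    ring
  have h4 : |(M : ℝ) * (∑ π, a π - ∑ π, b π)|
      ≤ ∑ _π : Equiv.Perm (Fin N), M * (Real.sqrt (2 ^ (n ^ d) / M) * 2 ^ (N ^ d)) := by
    rw [h3]
    exact (abs_sum_le_sum_abs _ _).trans (sum_le_sum fun π _ => hcore π)
  rw [abs_mul, abs_of_pos hM'] at h4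
  have h5 : ∑ _π : Equiv.Perm (Fin N), (M : ℝ) * (Real.sqrt (2 ^ (n ^ d) / M) * 2 ^ (N ^ d))
      = M * (Real.sqrt (2 ^ (n ^ d) / M) *
        Fintype.card (Equiv.Perm (Fin N) × Finset (Fin d → Fin N))) := by
    rw [sum_const, card_univ, nsmul_eq_mul, Fintype.card_prod, Fintype.card_finset]
    push_cast
    simp only [Fintype.card_fun, Fintype.card_fin]
    ring
  rw [h5] at h4
  exact le_of_mul_le_mul_left h4 hM'

end Pool.Agent.H720R3
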